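import Pool.Agent.W770.KP.Stm

set_option autoImplicit false
open scoped Classical

namespace Pool.Agent.W639.KP

open Pool.Agent.W770.KP

theorem jen : S_JEN := by
  intro n k hk hkn Λ D γ hD hγ
  have hk0 : (0 : ℝ) < k := by exact_mod_cast hk
  have hy : ∀ l, ((D l) ^ ((n : ℝ) / (k : ℝ) - 1)) ^ k = (D l) ^ (n - k) := by
    intro l
    rw [← Real.rpow_mul_natCast (hD l), ← Real.rpow_natCast (D l) (n - k)]
    congr 1
    rw [Nat.cast_sub hkn.le]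
    field_simp
  have hy0 : ∀ l, 0 ≤ (D l) ^ ((n : ℝ) / (k : ℝ) - 1) := fun l => Real.rpow_nonneg (hD l) _
  have hΓ : 0 ≤ ∑ l ∈ Λ, γ l := Finset.sum_nonneg hγ
  have hR : 0 ≤ ∑ l ∈ Λ, γ l * (D l) ^ (n - k) :=
    Finset.sum_nonneg fun l hl => mul_nonneg (hγ l hl) (pow_nonneg (hD l) _)
  rcases hΓ.eq_or_lt with h0 | hpos
  · have hz : ∀ l ∈ Λ, γ l = 0 := (Finset.sum_eq_zero_iff_of_nonneg hγ).1 h0.symm
    have h1 : ∑ l ∈ Λ, (D l) ^ ((n : ℝ) / (k : ℝ) - 1) * γ l = 0 :=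
      Finset.sum_eq_zero fun l hl => by rw [hz l hl, mul_zero]
    rw [h1, zero_pow (by omega)]
    exact mul_nonneg (pow_nonneg hΓ _) hR
  · set G := ∑ l ∈ Λ, γ l with hG
    have h2 := Real.pow_arith_mean_le_arith_mean_pow Λ (fun l => γ l / G)
      (fun l => (D l) ^ ((n : ℝ) / (k : ℝ) - 1)) (fun l hl => div_nonneg (hγ l hl) hΓ)
      (by rw [← Finset.sum_div, ← hG, div_self hpos.ne']) (fun l _ => hy0 l) k
    simp only [hy] at h2
    have e1 : ∑ l ∈ Λ, γ l / G * (D l) ^ ((n : ℝ) / (k : ℝ) - 1)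
        = (∑ l ∈ Λ, (D l) ^ ((n : ℝ) / (k : ℝ) - 1) * γ l) / G := by
      rw [Finset.sum_div]
      exact Finset.sum_congr rfl fun l _ => by ring
    have e2 : ∑ l ∈ Λ, γ l / G * (D l) ^ (n - k) = (∑ l ∈ Λ, γ l * (D l) ^ (n - k)) / G := by
      rw [Finset.sum_div]
      exact Finset.sum_congr rfl fun l _ => by ring
    rw [e1, e2, div_pow, div_le_div_iff₀ (pow_pos hpos k) hpos] at h2
    have hk' : G ^ k = G ^ (k - 1) * G := by
      rw [← pow_succ]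
      congr 1
      omega
    rw [hk'] at h2
    have h3 : (∑ l ∈ Λ, (D l) ^ ((n : ℝ) / (k : ℝ) - 1) * γ l) ^ k * G
        ≤ (G ^ (k - 1) * ∑ l ∈ Λ, γ l * (D l) ^ (n - k)) * G := by
      calc _ ≤ _ := h2
        _ = _ := by ring
    exact le_of_mul_le_mul_right h3 hpos

end Pool.Agent.W639.KP
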